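import Pool.Agent.Helper19.PU.Defs
import Mathlib.LinearAlgebra.Matrix.SchurComplement

/-!
# Project PU, piece 7: the density of the parallel transport field
-/

open MeasureTheory Set Metric Filter Module
open scoped NNReal Topology RealInnerProductSpace ENNReal Real ContDiff Manifold

namespace Pool.Agent.Helper19.PU

variable {E : Type*} [NormedAddCommGroup E] [InnerProductSpace ℝ E]

private theorem pu7_pos {a x : E} (ha : ‖a‖ = 1) (hx : ‖x‖ = 1) (hxa : x ≠ -a) :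
    0 < 1 + ⟪a, x⟫ := by
  have h1 : 0 < ‖a + x‖ := norm_pos_iff.2 fun h => hxa (eq_neg_of_add_eq_zero_right h)
  have h2 := norm_add_sq_real a x
  rw [ha, hx] at h2
  nlinarith [pow_pos h1 2]

private theorem pu7_D (a x : E) : Dm a 0 x = 1 + ⟪a, x⟫ := by simp [Dm]

private theorem pu7_N (J : E →L[ℝ] E) (a x : E) :
    Nm J a 0 x = (1 + ⟪a, x⟫) • J a - ⟪J a, x⟫ • (a + x) := by simp [Nm]

private theorem pu7_W (J : E →L[ℝ] E) (a x : E) (hu : 1 + ⟪a, x⟫ ≠ 0) :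
    Wm J a 0 x = J a - (⟪J a, x⟫ / (1 + ⟪a, x⟫)) • (a + x) := by
  rw [Wm, pu7_D, pu7_N]
  match_scalars <;> field_simp

theorem Tm_zero {J : E →L[ℝ] E} (hJ : CS J) {a x : E} (ha : ‖a‖ = 1) (hx : ‖x‖ = 1)
    (hxa : x ≠ -a) (δ : E) :
    Tm J a 0 x δ = -(⟪J a, x⟫ / (1 + ⟪a, x⟫)) • pr x δ
      - (⟪Wm J a 0 x, δ⟫ / (1 + ⟪a, x⟫)) • (a - ⟪a, x⟫ • x) := by
  have _ := hJ
  have hu := (pu7_pos ha hx hxa).ne'
  have hxx : ⟪x, x⟫ = 1 := by rw [real_inner_self_eq_norm_sq, hx]; norm_num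
  have e1 : ⟪x, a⟫ = ⟪a, x⟫ := real_inner_comm _ _
  have e2 : ⟪x, J a⟫ = ⟪J a, x⟫ := real_inner_comm _ _
  have hdN : ∀ y, dN J a 0 x y = ⟪a, y⟫ • J a - ⟪J a, y⟫ • (a + x) - ⟪J a, x⟫ • y := by
    intro y
    simp [dN]
  have hdW : ∀ y, dW J a 0 x y = (1 + ⟪a, x⟫)⁻¹ • (⟪a, y⟫ • J a - ⟪J a, y⟫ • (a + x)
      - ⟪J a, x⟫ • y) - (((1 + ⟪a, x⟫) ^ 2)⁻¹ * ⟪a, y⟫) • ((1 + ⟪a, x⟫) • J a
      - ⟪J a, x⟫ • (a + x)) := by
    intro y
    simp only [dW, pu7_D, pu7_N, _root_.sub_apply, _root_.smul_apply, hdN,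
      ContinuousLinearMap.smulRight_apply, innerSL_apply_apply, smul_smul]
    simp
  have hpr : ∀ y, pr x y = y - ⟪x, y⟫ • x := by
    intro y
    simp [pr]
  have hT : Tm J a 0 x δ = pr x (dW J a 0 x (pr x δ)) := rfl
  rw [hT, hdW, hpr, hpr, pu7_W J a x hu]
  simp only [inner_sub_left, inner_sub_right, inner_add_left, inner_add_right, inner_smul_left,
    inner_smul_right, hxx, e1, e2, RCLike.conj_to_real]
  set t := ⟪a, x⟫ with ht
  set s := ⟪J a, x⟫ with hs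
  match_scalars <;> field_simp <;> ring

/-- a determinant. -/
private theorem pu7_det [FiniteDimensional ℝ E] (k : ℕ) (hfr : finrank ℝ E = k + 3)
    (L : E →L[ℝ] E) (κ ν : ℝ) (x W w : E) (hxx : ⟪x, x⟫ = 1) (hWW : ⟪W, W⟫ = 1)
    (hxW : ⟪x, W⟫ = 0) (hxw : ⟪x, w⟫ = 0) (hwW : ⟪w, W⟫ = -κ) (hww : ⟪w, w⟫ = ν)
    (hL : ∀ δ, L δ = -κ • (δ - ⟪x, δ⟫ • x) - ⟪W, δ⟫ • w) :
    (1 + L.adjoint ∘L L).det = (1 + κ ^ 2) ^ k * (1 + ν) := by
  have hc : (1 + κ ^ 2 : ℝ) ≠ 0 := by positivity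
  set e := stdOrthonormalBasis ℝ E with he
  set c : ℝ := (1 + κ ^ 2)⁻¹ with hcdef
  let α : Fin 3 → E := ![c • (-κ ^ 2) • x, c • (κ • w + ν • W), c • κ • W]
  let β : Fin 3 → E := ![x, W, w]
  let A : Matrix (Fin (finrank ℝ E)) (Fin 3) ℝ := Matrix.of fun i l => ⟪e i, α l⟫
  let B : Matrix (Fin 3) (Fin (finrank ℝ E)) ℝ := Matrix.of fun l j => ⟪β l, e j⟫
  have hBA : B * A = Matrix.of fun l l' => ⟪β l, α l'⟫ := by
    ext l l'
    rw [Matrix.mul_apply]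
    exact e.sum_inner_mul_inner _ _
  have hM : LinearMap.toMatrix e.toBasis e.toBasis
      ((1 + L.adjoint ∘L L : E →L[ℝ] E) : E →ₗ[ℝ] E) = (1 + κ ^ 2) • (1 + A * B) := by
    ext i j
    rw [LinearMap.toMatrix_apply]
    have h1 : (e.toBasis.repr (((1 + L.adjoint ∘L L : E →L[ℝ] E) : E →ₗ[ℝ] E) (e.toBasis j))) i
        = ⟪e i, e j⟫ + ⟪L (e i), L (e j)⟫ := by
      rw [e.coe_toBasis, e.coe_toBasis_repr_apply, e.repr_apply_apply]
      have h2 : ((1 + L.adjoint ∘L L : E →L[ℝ] E) : E →ₗ[ℝ] E) (e j)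
          = e j + L.adjoint (L (e j)) := rfl
      rw [h2, inner_add_right, ContinuousLinearMap.adjoint_inner_right]
    rw [h1, hL, hL]
    have h3 : ((1 + κ ^ 2 : ℝ) • (1 + A * B) : Matrix _ _ ℝ) i j
        = (1 + κ ^ 2) * (⟪e i, e j⟫ + ∑ l, ⟪e i, α l⟫ * ⟪β l, e j⟫) := by
      rw [Matrix.smul_apply, Matrix.add_apply, Matrix.mul_apply, Matrix.one_apply,
        e.inner_eq_ite, smul_eq_mul]
      rfl
    rw [h3, Fin.sum_univ_three]
    have e1 : ⟪e i, x⟫ = ⟪x, e i⟫ := real_inner_comm _ _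
    have e2 : ⟪e i, W⟫ = ⟪W, e i⟫ := real_inner_comm _ _
    have e3 : ⟪e i, w⟫ = ⟪w, e i⟫ := real_inner_comm _ _
    have e4 : ⟪w, x⟫ = 0 := by rw [real_inner_comm, hxw]
    have a0 : α 0 = c • (-κ ^ 2) • x := rfl
    have a1 : α 1 = c • (κ • w + ν • W) := rfl
    have a2 : α 2 = c • κ • W := rfl
    have b0 : β 0 = x := rfl
    have b1 : β 1 = W := rfl
    have b2 : β 2 = w := rfl
    rw [a0, a1, a2, b0, b1, b2]
    simp only [inner_sub_left, inner_sub_right, inner_add_left, inner_add_right, inner_smul_left,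
      inner_smul_right, hxx, hxw, hww, e1, e2, e3, e4, RCLike.conj_to_real]
    rw [hcdef]
    field_simp
    ring
  have hdet : (1 + L.adjoint ∘L L).det
      = (LinearMap.toMatrix e.toBasis e.toBasis
        ((1 + L.adjoint ∘L L : E →L[ℝ] E) : E →ₗ[ℝ] E)).det := by
    rw [LinearMap.det_toMatrix]
  rw [hdet, hM, Matrix.det_smul, Matrix.det_one_add_mul_comm, hBA, Fintype.card_fin, hfr]
  have hd3 : (1 + Matrix.of fun l l' => ⟪β l, α l'⟫ : Matrix (Fin 3) (Fin 3) ℝ).det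
      = (1 + ν) / (1 + κ ^ 2) ^ 3 := by
    have hWx : ⟪W, x⟫ = 0 := by rw [real_inner_comm, hxW]
    have hWw : ⟪W, w⟫ = -κ := by rw [real_inner_comm, hwW]
    have hwx : ⟪w, x⟫ = 0 := by rw [real_inner_comm, hxw]
    rw [Matrix.det_fin_three]
    have a0 : α 0 = c • (-κ ^ 2) • x := rfl
    have a1 : α 1 = c • (κ • w + ν • W) := rfl
    have a2 : α 2 = c • κ • W := rfl
    have b0 : β 0 = x := rfl
    have b1 : β 1 = W := rfl
    have b2 : β 2 = w := rfl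
    simp only [Matrix.add_apply, Matrix.of_apply, Matrix.one_apply, a0, a1, a2, b0, b1, b2,
      inner_add_right, inner_smul_right, hxx, hWW, hxW, hxw, hwW, hww, hWx, hWw, hwx,
      Fin.isValue, Fin.reduceEq, if_true, if_false]
    rw [hcdef]
    field_simp
    ring
  rw [hd3, pow_add]
  field_simp

theorem volDens_zero [FiniteDimensional ℝ E] (m : ℕ) (hm : 1 ≤ m) (hfr : finrank ℝ E = 2 * m + 2)
    {J : E →L[ℝ] E} (hJ : CS J) {a x : E} (ha : ‖a‖ = 1) (hx : ‖x‖ = 1) (hxa : x ≠ -a) :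
    volDens (Tm J a 0 x) = √(2 / (1 + ⟪a, x⟫))
      * √(1 + (⟪J a, x⟫ / (1 + ⟪a, x⟫)) ^ 2) ^ (2 * m - 1) := by
  have hup := pu7_pos ha hx hxa
  have hu := hup.ne'
  have hxx : ⟪x, x⟫ = 1 := by rw [real_inner_self_eq_norm_sq, hx]; norm_num
  have haa : ⟪a, a⟫ = 1 := by rw [real_inner_self_eq_norm_sq, ha]; norm_num
  have hbb : ⟪J a, J a⟫ = 1 := by rw [real_inner_self_eq_norm_sq, hJ.norm, ha]; norm_num
  have hab : ⟪a, J a⟫ = 0 := hJ.inner a
  have hba : ⟪J a, a⟫ = 0 := by rw [real_inner_comm, hab]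
  have e1 : ⟪x, a⟫ = ⟪a, x⟫ := real_inner_comm _ _
  have e2 : ⟪x, J a⟫ = ⟪J a, x⟫ := real_inner_comm _ _
  have key := pu7_det (2 * m - 1) (by omega) (Tm J a 0 x) (⟪J a, x⟫ / (1 + ⟪a, x⟫))
    ((1 - ⟪a, x⟫) / (1 + ⟪a, x⟫)) x (Wm J a 0 x) ((1 + ⟪a, x⟫)⁻¹ • (a - ⟪a, x⟫ • x)) hxx
    (by
      rw [pu7_W J a x hu]
      simp only [inner_sub_left, inner_sub_right, inner_add_left, inner_add_right,
        inner_smul_left, inner_smul_right, hxx, haa, hbb, hab, hba, e1, e2, RCLike.conj_to_real]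
      field_simp
      ring)
    (by
      rw [pu7_W J a x hu]
      simp only [inner_sub_left, inner_sub_right, inner_add_left, inner_add_right,
        inner_smul_left, inner_smul_right, hxx, haa, hbb, hab, hba, e1, e2, RCLike.conj_to_real]
      field_simp
      ring)
    (by
      simp only [inner_sub_left, inner_sub_right, inner_add_left, inner_add_right,
        inner_smul_left, inner_smul_right, hxx, haa, hbb, hab, hba, e1, e2, RCLike.conj_to_real]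
      ring)
    (by
      rw [pu7_W J a x hu]
      simp only [inner_sub_left, inner_sub_right, inner_add_left, inner_add_right,
        inner_smul_left, inner_smul_right, hxx, haa, hbb, hab, hba, e1, e2, RCLike.conj_to_real]
      field_simp
      ring)
    (by
      simp only [inner_sub_left, inner_sub_right, inner_add_left, inner_add_right,
        inner_smul_left, inner_smul_right, hxx, haa, hbb, hab, hba, e1, e2, RCLike.conj_to_real]
      field_simp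
      ring)
    (by
      intro δ
      rw [Tm_zero hJ ha hx hxa, smul_smul]
      have : pr x δ = δ - ⟪x, δ⟫ • x := by simp [pr]
      rw [this, div_eq_mul_inv ⟪Wm J a 0 x, δ⟫])
  rw [volDens, key]
  have h1 : 1 + (1 - ⟪a, x⟫) / (1 + ⟪a, x⟫) = 2 / (1 + ⟪a, x⟫) := by
    field_simp
    ring
  have h0 : 0 ≤ 1 + (⟪J a, x⟫ / (1 + ⟪a, x⟫)) ^ 2 := by positivity
  have h2 : √((1 + (⟪J a, x⟫ / (1 + ⟪a, x⟫)) ^ 2) ^ (2 * m - 1))
      = √(1 + (⟪J a, x⟫ / (1 + ⟪a, x⟫)) ^ 2) ^ (2 * m - 1) := by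
    rw [Real.sqrt_eq_iff_mul_self_eq (by positivity) (by positivity), ← mul_pow,
      Real.mul_self_sqrt h0]
  rw [h1, mul_comm, Real.sqrt_mul (by positivity), h2]

end Pool.Agent.Helper19.PU
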